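import Pool.Agent.Helper13.TR.StA

/-! # Project TR, module PSH: functoriality of singular chains -/

set_option autoImplicit false

namespace Pool.Agent.Helper94.TR

open Set Topology Pool.Agent.Helper13.TR

variable {X Y Z : Type} [TopologicalSpace X] [TopologicalSpace Y] [TopologicalSpace Z]

private theorem push_single (f : C(X, Y)) (n : ℕ) (σ : Sx X n) (a : ℤ) :
    push f n (Finsupp.single σ a) = Finsupp.single (f.comp σ) a := by
  simp only [push, Finsupp.lmapDomain_apply, Finsupp.mapDomain_single]

private theorem bd_push (f : C(X, Y)) (n : ℕ) (c : Ch X (n + 1)) :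
    bd n (push f (n + 1) c) = push f n (bd n c) := by
  have h : (bd n).comp (push f (n + 1)) = (push f n).comp (bd n) := by
    refine Finsupp.lhom_ext' fun σ => LinearMap.ext_ring ?_
    show bd n (push f (n + 1) (Finsupp.single σ 1)) = push f n (bd n (Finsupp.single σ 1))
    rw [push_single]
    simp only [bd, Finsupp.linearCombination_single, one_smul, map_sum, map_smul, push_single]
    rfl
  exact LinearMap.congr_fun h c

private theorem comp_inj (f : C(X, Y)) (hf : Function.Injective f) (n : ℕ) :
    Function.Injective fun σ : Sx X n => f.comp σ := by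
  intro σ τ h
  ext1 x
  exact hf (ContinuousMap.congr_fun h x)

theorem hPSH : StPSH := by
  intro X Y Z _ _ _ f g
  refine ⟨bd_push f, ?_, ?_, ?_, ?_, ?_⟩
  · intro n c
    simp only [push, Finsupp.lmapDomain_apply]
    rw [← Finsupp.mapDomain_comp]
    rfl
  · intro S n c hc
    have h : push f n c ∈ (cin (f ⁻¹' S) n).map (push f n) := Submodule.mem_map_of_mem hc
    simp only [cin, push] at h
    rw [Finsupp.lmapDomain_supported] at h
    refine Finsupp.supported_mono ?_ h
    rintro _ ⟨σ, hσ, rfl⟩
    rintro _ ⟨x, rfl⟩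
    exact hσ ⟨x, rfl⟩
  · intro hf n
    exact Finsupp.mapDomain_injective (comp_inj f hf n)
  · intro hf S n c hc
    have h : c ∈ (cin S n).map (push f n) := by
      simp only [cin, push]
      rw [Finsupp.lmapDomain_supported]
      refine Finsupp.supported_mono ?_ hc
      intro σ hσ
      have hσ' : ∀ x, ∃ y, y ∈ S ∧ f y = σ x := fun x => hσ ⟨x, rfl⟩
      choose s hs1 hs2 using hσ'
      have hs : Continuous s := by
        rw [hf.isInducing.continuous_iff]
        have : (f : X → Y) ∘ s = σ := funext hs2
        rw [this]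
        exact σ.continuous
      refine ⟨⟨s, hs⟩, ?_, ?_⟩
      · rintro _ ⟨x, rfl⟩
        exact hs1 x
      · ext1 x
        exact hs2 x
    obtain ⟨c', hc', h'⟩ := h
    exact ⟨c', hc', h'⟩
  · intro hf S n c hc
    classical
    have h : Finsupp.mapDomain (fun σ : Sx X n => f.comp σ) c ∈ cin S n := hc
    rw [cin, Finsupp.mem_supported] at h ⊢
    rw [Finsupp.mapDomain_support_of_injective (comp_inj f hf n)] at h
    intro σ hσ
    have h1 := h (Finset.mem_coe.2 (Finset.mem_image_of_mem _ hσ))
    rintro _ ⟨x, rfl⟩
    exact h1 ⟨x, rfl⟩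

end Pool.Agent.Helper94.TR
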